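import Pool.Agent.J6H36.LF.Stm2

/-!
# LF-RCB: uncountable real closed or algebraically closed fields have many general points
-/

set_option autoImplicit false

universe u

namespace Pool.Agent.J6H45.LF

open Cardinal MvPolynomial Pool.Agent.J6H36.BSV Pool.Agent.J6H36.LF

theorem card_le (P : Type) [Field P] [Countable P] (K : Type u) [Field K] [Algebra P K]
    (hK : ℵ₀ < #K) (B : Set K) (hB : IsTranscendenceBasis P ((↑) : B → K)) : #K ≤ #B := by
  have h1 := hB.isAlgebraic
  have h2 : #K ≤ max #(Algebra.adjoin P (Set.range ((↑) : B → K))) ℵ₀ :=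
    Algebra.IsAlgebraic.cardinalMk_le_max _ K
  have h3 : #(Algebra.adjoin P (Set.range ((↑) : B → K))) = #(MvPolynomial B P) :=
    (Cardinal.mk_congr hB.1.aevalEquiv.toEquiv).symm
  have h4 : #(MvPolynomial B P) ≤ lift.{u} #P ⊔ lift.{0} #B ⊔ ℵ₀ :=
    MvPolynomial.cardinalMk_le_max_lift
  have h5 : lift.{u} #P ≤ ℵ₀ := by
    rw [lift_le_aleph0]
    exact Cardinal.mk_le_aleph0
  have h6 : #K ≤ max #B ℵ₀ := by
    refine h2.trans (max_le ?_ (le_max_right _ _))
    rw [h3]
    refine h4.trans ?_
    rw [lift_id'.{0, u}]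
    exact max_le (max_le (h5.trans (le_max_right _ _)) (le_max_left _ _)) (le_max_right _ _)
  rcases le_max_iff.1 h6 with h | h
  · exact h
  · exact absurd hK (not_lt.2 h)

/-- an uncountable field has `#K` algebraically independent elements over a countable field -/
theorem exists_indep (P : Type) [Field P] [Countable P] (K : Type u) [Field K] [Algebra P K]
    (hK : ℵ₀ < #K) (I : Type) [Finite I] : ∃ b : K × I → K, AlgebraicIndependent P b := by
  obtain ⟨B, hB⟩ := exists_isTranscendenceBasis P K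
  have h1 : #K ≤ #B := card_le P K hK B hB
  have h2 : #(K × I) ≤ #B := by
    refine le_trans ?_ h1
    rw [Cardinal.mk_prod]
    refine Cardinal.mul_le_of_le hK.le ?_ ?_
    · rw [lift_id'.{0, u}]
    · exact (lift_lt_aleph0.2 (Cardinal.lt_aleph0_of_finite I)).le.trans hK.le
  obtain ⟨g⟩ := (Cardinal.le_def _ _).1 h2
  exact ⟨fun p => (g p : K), hB.1.comp g g.injective⟩

/-- evaluation of a polynomial in `Y` and `t` in two steps -/
theorem aeval_pt {P : Type} [Field P] {Ω : Type u} [Field Ω] [Algebra P Ω] {d : ℕ} (a : Ω)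
    (t : Fin d → Ω) (f : MvPolynomial (Option (Fin d)) P) :
    aeval (pt a t) f = Polynomial.eval₂
      ((aeval t : MvPolynomial (Fin d) P →ₐ[P] Ω) : MvPolynomial (Fin d) P →+* Ω) a
      (optionEquivLeft P (Fin d) f) := by
  induction f using MvPolynomial.induction_on with
  | C c =>
    rw [optionEquivLeft_C, Polynomial.eval₂_C, aeval_C]
    change _ = aeval t (C c)
    rw [aeval_C]
  | add p q hp hq => rw [map_add, map_add, Polynomial.eval₂_add, hp, hq]
  | mul_X p i hp =>
    rw [map_mul, map_mul, Polynomial.eval₂_mul, hp, aeval_X]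
    congr 1
    rcases i with _ | i
    · rw [optionEquivLeft_X_none, Polynomial.eval₂_X]
      rfl
    · rw [optionEquivLeft_X_some, Polynomial.eval₂_C]
      change _ = aeval t (X i)
      rw [aeval_X]
      rfl

/-- over a general point of the base there is a point of the hypersurface -/
theorem exists_root {P : Type} [Field P] {Ω : Type u} [Field Ω] [Algebra P Ω] [IsAlgClosed Ω]
    {d : ℕ} (t : Fin d → Ω) (ht : AlgebraicIndependent P t) (f : MvPolynomial (Option (Fin d)) P)
    (hf : pderiv none f ≠ 0) : ∃ a : Ω, aeval (pt a t) f = 0 := by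
  have hdeg : (optionEquivLeft P (Fin d) f).natDegree ≠ 0 := by
    rw [natDegree_optionEquivLeft]
    intro h
    apply hf
    apply pderiv_eq_zero_of_notMem_vars
    rw [mem_vars_iff_degreeOf_ne_zero]
    exact fun h' => h' h
  set F := (optionEquivLeft P (Fin d) f).map
    ((aeval t : MvPolynomial (Fin d) P →ₐ[P] Ω) : MvPolynomial (Fin d) P →+* Ω) with hF
  have hinj : Function.Injective
      ((aeval t : MvPolynomial (Fin d) P →ₐ[P] Ω) : MvPolynomial (Fin d) P →+* Ω) := ht
  have hFd : F.degree ≠ 0 := by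
    intro h
    rw [hF, Polynomial.degree_map_eq_of_injective hinj] at h
    exact hdeg (Polynomial.natDegree_eq_of_degree_eq_some h)
  obtain ⟨a, ha⟩ := IsAlgClosed.exists_root F hFd
  refine ⟨a, ?_⟩
  rw [aeval_pt, ← Polynomial.eval_map]
  exact ha

theorem t_RCB : Pool.Agent.J6H36.LF.S_RCB.{u} := by
  classical
  intro hG hC P _ _ _ K _ _ hcard hI S hS
  obtain ⟨z, hz⟩ := IsAlgClosed.exists_pow_nat_eq (-1 : AlgebraicClosure K) (n := 2) (by norm_num)
  have hzalg : IsAlgebraic P z := by
    apply IsAlgebraic.of_pow (n := 2) (by norm_num)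
    rw [hz]
    exact isAlgebraic_one.neg
  have hS' : ∀ y ∈ insert z S, IsAlgebraic P y := by
    intro y hy
    rcases Finset.mem_insert.1 hy with h | h
    · rw [h]
      exact hzalg
    · exact hS y h
  obtain ⟨A, m, e, hfd, hgal, hSA, he⟩ := hG P K (AlgebraicClosure K) (insert z S) hS'
  have hzA : z ∈ A := hSA (Finset.mem_coe.2 (Finset.mem_insert_self z S))
  have htop : A = ⊤ := by
    rw [eq_top_iff, ← hI z hz]
    rw [IntermediateField.adjoin_simple_le_iff]
    exact hzA
  refine ⟨A, m, e, hfd, hgal, ?_, he, ?_⟩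
  · refine subset_trans ?_ hSA
    intro y hy
    exact Finset.mem_coe.2 (Finset.mem_insert_of_mem (Finset.mem_coe.1 hy))
  intro d f t₀ a₀ ht₀ hf hf'
  obtain ⟨b, hb⟩ := exists_indep P K hcard (Fin d × Fin m)
  refine ⟨b, hb, ?_⟩
  intro j
  have h1 := hC P K (AlgebraicClosure K) A m e he d t₀ ht₀ K b hb
  have h2 : AlgebraicIndependent (algebraicClosure P (AlgebraicClosure K))
      (fun i : Fin d => ((t₀ i + ∑ l, b (j, (i, l)) • e l : A) : AlgebraicClosure K)) := by
    have h3 := h1.comp (fun i : Fin d => ((j, (1 : A ≃ₐ[K] A)), i))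
      (fun i i' h => (Prod.ext_iff.1 h).2)
    exact h3
  have h4 : AlgebraicIndependent P
      (fun i : Fin d => ((t₀ i + ∑ l, b (j, (i, l)) • e l : A) : AlgebraicClosure K)) :=
    h2.restrictScalars (FaithfulSMul.algebraMap_injective P
      (algebraicClosure P (AlgebraicClosure K)))
  have hne : pderiv none f ≠ 0 := by
    intro h
    apply hf'
    rw [h, map_zero]
  obtain ⟨a, ha⟩ := exists_root _ h4 f hne
  have haA : a ∈ A := by
    rw [htop]
    trivial
  refine ⟨⟨a, haA⟩, ?_⟩
  apply Subtype.val_injective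
  have h5 : ((aeval (pt (⟨a, haA⟩ : A) (fun i => t₀ i + ∑ l, b (j, (i, l)) • e l)) f : A) :
      AlgebraicClosure K) = aeval (fun o => ((pt (⟨a, haA⟩ : A)
        (fun i => t₀ i + ∑ l, b (j, (i, l)) • e l) o : A) : AlgebraicClosure K)) f := by
    have h8 : IsScalarTower P A (AlgebraicClosure K) :=
      IsScalarTower.of_algebraMap_eq fun x => by
        rw [IsScalarTower.algebraMap_apply P K (AlgebraicClosure K),
          IsScalarTower.algebraMap_apply P K A]
        rfl
    have h6 := MvPolynomial.aeval_algebraMap_apply (A := A) (B := AlgebraicClosure K) (R := P)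
      (pt (⟨a, haA⟩ : A) (fun i => t₀ i + ∑ l, b (j, (i, l)) • e l)) f
    exact h6.symm
  refine h5.trans ?_
  have h7 : (fun o => ((pt (⟨a, haA⟩ : A)
        (fun i => t₀ i + ∑ l, b (j, (i, l)) • e l) o : A) : AlgebraicClosure K)) =
      pt a (fun i => ((t₀ i + ∑ l, b (j, (i, l)) • e l : A) : AlgebraicClosure K)) := by
    funext o
    rcases o with _ | i
    · rfl
    · rfl
  rw [h7, ha]
  rfl

end Pool.Agent.J6H45.LF
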